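import Pool.Agent.H61.FM.Targets

/-!
# MP_52e316_nt, board `fmc_modules`: row FM2
-/

set_option autoImplicit false

open MeasureTheory Set Filter NumberField
open scoped Real nonZeroDivisors

namespace Pool.Agent.H79.FM

open Pool.Agent.H31.CN Pool.Agent.H89.FM Pool.Agent.H61.FM

theorem pf_FM2 (hFM1 : T_FM1) : T_FM2 := by
  intro ε hε
  obtain ⟨C1, A, hC1, h1⟩ := hFM1 ε hε
  refine ⟨2 * C1, A, by positivity, ?_⟩
  have key : ∀ m : ℕ, ∀ (X : ℝ) (K : ℕ → Type) [∀ D, Field (K D)] [∀ D, NumberField (K D)]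
      (S : Finset ℕ) (F : ∀ D, CC (K D) → ℂ → ℂ) (t : ∀ D, CC (K D) → ℝ), 1 ≤ X →
      X ≤ 4 ^ m → Fml K S F 0 X →
      ∑ D ∈ S, ∑ ψ : CC (K D),
        (‖F D ψ (1 / 2 + t D ψ * Complex.I)‖ / (1 + |t D ψ|) ^ A) ^ 4 ≤
          2 * C1 * X ^ (3 / 2 + ε) := by
    intro m
    induction m with
    | zero =>
      intro X K _ _ S F t hX hXm hS
      rw [pow_zero] at hXm
      have hX1 : X = 1 := le_antisymm hXm hX
      subst hX1
      have hS' : Fml K S F (1 / 4) 1 := by
        intro D hD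
        obtain ⟨_, hb, hc, hd⟩ := hS D hD
        have hpos : (1 : ℝ) ≤ D := by exact_mod_cast hc.pos
        exact ⟨by linarith, hb, hc, hd⟩
      have h := h1 1 K S F t le_rfl hS'
      rw [Real.one_rpow] at h ⊢
      linarith
    | succ m ih =>
      intro X K _ _ S F t hX hXm hS
      have hX0 : 0 < X := by linarith
      have hXp : 0 ≤ X ^ (3 / 2 + ε) := (Real.rpow_pos_of_pos hX0 _).le
      rw [← Finset.sum_filter_add_sum_filter_not S (fun D : ℕ => X / 4 ≤ (D : ℝ))]
      have e1 : ∑ D ∈ S.filter (fun D : ℕ => X / 4 ≤ (D : ℝ)), ∑ ψ : CC (K D),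
          (‖F D ψ (1 / 2 + t D ψ * Complex.I)‖ / (1 + |t D ψ|) ^ A) ^ 4 ≤
          C1 * X ^ (3 / 2 + ε) := by
        refine h1 X K _ F t hX ?_
        intro D hD
        obtain ⟨hD1, hD2⟩ := Finset.mem_filter.1 hD
        obtain ⟨_, hb, hc, hd⟩ := hS D hD1
        exact ⟨hD2, hb, hc, hd⟩
      have e2 : ∑ D ∈ S.filter (fun D : ℕ => ¬ X / 4 ≤ (D : ℝ)), ∑ ψ : CC (K D),
          (‖F D ψ (1 / 2 + t D ψ * Complex.I)‖ / (1 + |t D ψ|) ^ A) ^ 4 ≤
          C1 * X ^ (3 / 2 + ε) / 2 := by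
        by_cases hX4 : X < 4
        · have hempty : S.filter (fun D : ℕ => ¬ X / 4 ≤ (D : ℝ)) = ∅ := by
            apply Finset.filter_eq_empty_iff.2
            intro D hD hcon
            obtain ⟨_, _, hc, _⟩ := hS D hD
            have hpos : (1 : ℝ) ≤ D := by exact_mod_cast hc.pos
            apply hcon
            linarith
          rw [hempty, Finset.sum_empty]
          positivity
        · push Not at hX4
          have hX' : 1 ≤ X / 4 := by linarith
          have h := ih (X / 4) K (S.filter (fun D : ℕ => ¬ X / 4 ≤ (D : ℝ))) F t hX' (by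
            rw [pow_succ] at hXm
            linarith) (by
            intro D hD
            obtain ⟨hD1, hD2⟩ := Finset.mem_filter.1 hD
            obtain ⟨ha, _, hc, hd⟩ := hS D hD1
            push Not at hD2
            exact ⟨ha, hD2.le, hc, hd⟩)
          refine h.trans ?_
          rw [Real.div_rpow hX0.le (by norm_num)]
          have h4 : (4 : ℝ) ≤ 4 ^ (3 / 2 + ε) := by
            calc (4 : ℝ) = 4 ^ (1 : ℝ) := (Real.rpow_one 4).symm
              _ ≤ 4 ^ (3 / 2 + ε) := Real.rpow_le_rpow_of_exponent_le (by norm_num) (by linarith)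
          have h5 : X ^ (3 / 2 + ε) / 4 ^ (3 / 2 + ε) ≤ X ^ (3 / 2 + ε) / 4 :=
            div_le_div_of_nonneg_left hXp (by norm_num) h4
          have h6 := mul_le_mul_of_nonneg_left h5 (by positivity : (0 : ℝ) ≤ 2 * C1)
          linarith
      have h7 : 0 ≤ C1 * X ^ (3 / 2 + ε) := mul_nonneg hC1.le hXp
      linarith
  intro X K _ _ S F t hX hS
  obtain ⟨m, hm⟩ := pow_unbounded_of_one_lt X (by norm_num : (1 : ℝ) < 4)
  exact key m X K S F t hX hm.le hS

end Pool.Agent.H79.FM
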