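import Mathlib

/-!
# Gaussian sums in dimensions one and three (board `fmo_modules`, rows PN1, PN3, TAL, GMA)
-/

set_option autoImplicit false

open MeasureTheory Set Filter
open scoped Real

namespace Pool.Agent.H79.FM

lemma nat_gauss (c : ℝ) (hc : 0 < c) :
    Summable (fun n : ℕ => Real.exp (-(c * (n : ℝ) ^ 2))) ∧
      ∑' n : ℕ, Real.exp (-(c * (n : ℝ) ^ 2)) ≤ 1 + Real.sqrt (π / c) / 2 := by
  have hint : Integrable (fun x : ℝ => Real.exp (-c * x ^ 2)) := integrable_exp_neg_mul_sq hc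
  have hb : ∀ N : ℕ, ∑ i ∈ Finset.range N, Real.exp (-(c * (i : ℝ) ^ 2)) ≤
      1 + Real.sqrt (π / c) / 2 := by
    intro N
    have h1 : ∑ i ∈ Finset.range N, Real.exp (-(c * (i : ℝ) ^ 2)) ≤
        ∑ i ∈ Finset.range (N + 1), Real.exp (-(c * (i : ℝ) ^ 2)) :=
      Finset.sum_le_sum_of_subset_of_nonneg
        (Finset.range_mono (Nat.le_succ N)) (fun _ _ _ => (Real.exp_pos _).le)
    have h2 : ∑ i ∈ Finset.range (N + 1), Real.exp (-(c * (i : ℝ) ^ 2)) =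
        (∑ i ∈ Finset.range N, Real.exp (-c * ((0 : ℝ) + ((i + 1 : ℕ) : ℝ)) ^ 2)) + 1 := by
      rw [Finset.sum_range_succ']
      congr 1
      · refine Finset.sum_congr rfl fun i _ => ?_
        rw [zero_add, neg_mul]
      · simp
    have hanti : AntitoneOn (fun x : ℝ => Real.exp (-c * x ^ 2)) (Icc (0 : ℝ) (0 + (N : ℝ))) := by
      intro x hx y hy hxy
      apply Real.exp_le_exp.2
      have h3 : x ^ 2 ≤ y ^ 2 := pow_le_pow_left₀ hx.1 hxy 2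
      nlinarith
    have h3 := hanti.sum_le_integral
    have h4 : ∫ x in (0 : ℝ)..(0 + (N : ℝ)), Real.exp (-c * x ^ 2) ≤ Real.sqrt (π / c) / 2 := by
      rw [← integral_gaussian_Ioi c,
        intervalIntegral.integral_of_le (by rw [zero_add]; exact Nat.cast_nonneg N)]
      exact setIntegral_mono_set hint.integrableOn
        (Eventually.of_forall fun x => (Real.exp_pos _).le)
        (Eventually.of_forall fun x hx => hx.1)
    linarith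
  constructor
  · exact summable_of_sum_range_le (fun n => (Real.exp_pos _).le) hb
  · exact Real.tsum_le_of_sum_range_le (fun n => (Real.exp_pos _).le) hb

lemma gsum0 (c x : ℝ) (hc : 0 < c) (hx0 : 0 ≤ x) (hx1 : x ≤ 1) :
    Summable (fun n : ℤ => Real.exp (-(c * ((n : ℝ) + x) ^ 2))) ∧
      ∑' n : ℤ, Real.exp (-(c * ((n : ℝ) + x) ^ 2)) ≤ 2 + Real.sqrt (π / c) := by
  obtain ⟨hs, hb⟩ := nat_gauss c hc
  have h1 : ∀ n : ℕ, Real.exp (-(c * (((n : ℤ) : ℝ) + x) ^ 2)) ≤ Real.exp (-(c * (n : ℝ) ^ 2)) := by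
    intro n
    apply Real.exp_le_exp.2
    have hn : (0 : ℝ) ≤ n := Nat.cast_nonneg n
    have h2 : ((n : ℝ)) ^ 2 ≤ (((n : ℤ) : ℝ) + x) ^ 2 := by
      push_cast
      nlinarith
    nlinarith
  have h2 : ∀ n : ℕ, Real.exp (-(c * (((-((n : ℤ) + 1) : ℤ) : ℝ) + x) ^ 2)) ≤
      Real.exp (-(c * (n : ℝ) ^ 2)) := by
    intro n
    apply Real.exp_le_exp.2
    have hn : (0 : ℝ) ≤ n := Nat.cast_nonneg n
    have h3 : ((n : ℝ)) ^ 2 ≤ (((-((n : ℤ) + 1) : ℤ) : ℝ) + x) ^ 2 := by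
      push_cast
      nlinarith
    nlinarith
  have s1 : Summable (fun n : ℕ => Real.exp (-(c * (((n : ℤ) : ℝ) + x) ^ 2))) :=
    Summable.of_nonneg_of_le (fun _ => (Real.exp_pos _).le) h1 hs
  have s2 : Summable (fun n : ℕ => Real.exp (-(c * (((-((n : ℤ) + 1) : ℤ) : ℝ) + x) ^ 2))) :=
    Summable.of_nonneg_of_le (fun _ => (Real.exp_pos _).le) h2 hs
  constructor
  · exact Summable.of_nat_of_neg_add_one s1 s2
  · rw [tsum_of_nat_of_neg_add_one (f := fun n : ℤ => Real.exp (-(c * ((n : ℝ) + x) ^ 2))) s1 s2]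
    have e1 := s1.tsum_le_tsum h1 hs
    have e2 := s2.tsum_le_tsum h2 hs
    linarith

/-- Gaussian sums in dimension one -/
lemma gsum (c x : ℝ) (hc : 0 < c) :
    Summable (fun n : ℤ => Real.exp (-(c * ((n : ℝ) + x) ^ 2))) ∧
      ∑' n : ℤ, Real.exp (-(c * ((n : ℝ) + x) ^ 2)) ≤ 2 + Real.sqrt (π / c) := by
  obtain ⟨hs, hb⟩ := gsum0 c (Int.fract x) hc (Int.fract_nonneg x) (Int.fract_lt_one x).le
  have he : (fun n : ℤ => Real.exp (-(c * ((n : ℝ) + x) ^ 2))) =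
      (fun n : ℤ => Real.exp (-(c * ((n : ℝ) + Int.fract x) ^ 2))) ∘
        (Equiv.addRight (⌊x⌋ : ℤ)) := by
    funext n
    simp only [Function.comp, Equiv.coe_addRight]
    congr 4
    push_cast
    rw [add_assoc, Int.floor_add_fract]
  rw [he]
  constructor
  · exact (Equiv.addRight (⌊x⌋ : ℤ)).summable_iff.2 hs
  · have h := (Equiv.addRight (⌊x⌋ : ℤ)).tsum_eq
      (fun n : ℤ => Real.exp (-(c * ((n : ℝ) + Int.fract x) ^ 2)))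
    exact h.le.trans hb

/-- sums over three variables, real nonnegative terms -/
lemma prod3 (f g h : ℤ → ℝ) (hf : ∀ n, 0 ≤ f n) (hg : ∀ n, 0 ≤ g n) (hh : ∀ n, 0 ≤ h n)
    (sf : Summable f) (sg : Summable g) (sh : Summable h) :
    Summable (fun Q : ℤ × ℤ × ℤ => f Q.1 * (g Q.2.1 * h Q.2.2)) ∧
      ∑' Q : ℤ × ℤ × ℤ, f Q.1 * (g Q.2.1 * h Q.2.2) = (∑' n, f n) * ((∑' n, g n) * ∑' n, h n) := by
  have s2 : Summable (fun R : ℤ × ℤ => g R.1 * h R.2) := sg.mul_of_nonneg sh hg hh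
  have s3 : Summable (fun Q : ℤ × (ℤ × ℤ) => f Q.1 * (fun R : ℤ × ℤ => g R.1 * h R.2) Q.2) :=
    sf.mul_of_nonneg s2 hf (fun R => mul_nonneg (hg _) (hh _))
  refine ⟨s3, ?_⟩
  have e2 : (∑' n, g n) * ∑' n, h n = ∑' R : ℤ × ℤ, g R.1 * h R.2 := sg.tsum_mul_tsum sh s2
  have e3 : (∑' n, f n) * ∑' R : ℤ × ℤ, g R.1 * h R.2 =
      ∑' Q : ℤ × (ℤ × ℤ), f Q.1 * (fun R : ℤ × ℤ => g R.1 * h R.2) Q.2 :=
    sf.tsum_mul_tsum s2 s3
  rw [e2, e3]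

/-- sums over three variables, complex terms -/
lemma prod3c (f g h : ℤ → ℂ) (sf : Summable fun n => ‖f n‖) (sg : Summable fun n => ‖g n‖)
    (sh : Summable fun n => ‖h n‖) :
    ∑' Q : ℤ × ℤ × ℤ, f Q.1 * (g Q.2.1 * h Q.2.2) = (∑' n, f n) * ((∑' n, g n) * ∑' n, h n) := by
  have s2 : Summable (fun R : ℤ × ℤ => ‖g R.1 * h R.2‖) := by
    have := sg.mul_of_nonneg sh (fun n => norm_nonneg _) (fun n => norm_nonneg _)
    refine this.congr fun R => ?_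
    rw [norm_mul]
  have e2 : (∑' n, g n) * ∑' n, h n = ∑' R : ℤ × ℤ, g R.1 * h R.2 :=
    tsum_mul_tsum_of_summable_norm sg sh
  have e3 : (∑' n, f n) * ∑' R : ℤ × ℤ, g R.1 * h R.2 =
      ∑' Q : ℤ × (ℤ × ℤ), f Q.1 * (fun R : ℤ × ℤ => g R.1 * h R.2) Q.2 :=
    tsum_mul_tsum_of_summable_norm sf s2
  rw [e2, e3]

/-- Gaussian sums in dimension three -/
lemma gsum3 (c₁ c₂ c₃ x₁ x₂ x₃ : ℝ) (h₁ : 0 < c₁) (h₂ : 0 < c₂) (h₃ : 0 < c₃) :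
    Summable (fun Q : ℤ × ℤ × ℤ => Real.exp (-(c₁ * ((Q.1 : ℝ) + x₁) ^ 2)) *
      (Real.exp (-(c₂ * ((Q.2.1 : ℝ) + x₂) ^ 2)) * Real.exp (-(c₃ * ((Q.2.2 : ℝ) + x₃) ^ 2)))) ∧
    ∑' Q : ℤ × ℤ × ℤ, Real.exp (-(c₁ * ((Q.1 : ℝ) + x₁) ^ 2)) *
      (Real.exp (-(c₂ * ((Q.2.1 : ℝ) + x₂) ^ 2)) * Real.exp (-(c₃ * ((Q.2.2 : ℝ) + x₃) ^ 2))) ≤
      (2 + Real.sqrt (π / c₁)) * ((2 + Real.sqrt (π / c₂)) * (2 + Real.sqrt (π / c₃))) := by
  obtain ⟨s1, b1⟩ := gsum c₁ x₁ h₁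
  obtain ⟨s2, b2⟩ := gsum c₂ x₂ h₂
  obtain ⟨s3, b3⟩ := gsum c₃ x₃ h₃
  obtain ⟨s, e⟩ := prod3 _ _ _ (fun _ => (Real.exp_pos _).le) (fun _ => (Real.exp_pos _).le)
    (fun _ => (Real.exp_pos _).le) s1 s2 s3
  refine ⟨s, ?_⟩
  rw [e]
  have n2 : 0 ≤ ∑' n : ℤ, Real.exp (-(c₂ * ((n : ℝ) + x₂) ^ 2)) :=
    tsum_nonneg fun _ => (Real.exp_pos _).le
  have n3 : 0 ≤ ∑' n : ℤ, Real.exp (-(c₃ * ((n : ℝ) + x₃) ^ 2)) :=
    tsum_nonneg fun _ => (Real.exp_pos _).le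
  have p1 : 0 ≤ 2 + Real.sqrt (π / c₁) := by positivity
  have p2 : 0 ≤ 2 + Real.sqrt (π / c₂) := by positivity
  exact mul_le_mul b1 (mul_le_mul b2 b3 n3 p2) (mul_nonneg n2 n3) p1

end Pool.Agent.H79.FM
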