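import Pool.Agent.H89.FM.Targets2
import Pool.Agent.H79.FM.G1

/-!
# MP_52e316_nt, board `fmo_modules`: row GMA
-/

set_option autoImplicit false

open MeasureTheory Set Filter
open scoped Real

namespace Pool.Agent.H79.FM

open Pool.Agent.H31.CN Pool.Agent.H89.FM

theorem pf_GMA : T_GMA := by
  refine ⟨32, by norm_num, ?_⟩
  intro W ρ P hW hρ
  obtain ⟨P1, P2, P3⟩ := P
  have hW0 : 0 < W := by linarith
  have hρ0 : 0 < ρ := by linarith
  have hWne : W ≠ 0 := hW0.ne'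
  have hρne : ρ ≠ 0 := hρ0.ne'
  have hdq : ∀ Q : QF, Real.exp (-(dq ρ (P1, P2, P3) (rl Q) / W ^ 2)) =
      Real.exp (-(1 / (W / ρ) ^ 2 * ((Q.1 : ℝ) + -P1) ^ 2)) *
        (Real.exp (-(1 / W ^ 2 * ((Q.2.1 : ℝ) + -P2) ^ 2)) *
          Real.exp (-(1 / (W * ρ) ^ 2 * ((Q.2.2 : ℝ) + -P3) ^ 2))) := by
    intro Q
    rw [← Real.exp_add, ← Real.exp_add]
    unfold dq rl
    congr 1
    field_simp
    ring
  obtain ⟨s, b⟩ := gsum3 (1 / (W / ρ) ^ 2) (1 / W ^ 2) (1 / (W * ρ) ^ 2) (-P1) (-P2) (-P3)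
    (by positivity) (by positivity) (by positivity)
  rw [funext hdq]
  refine ⟨s, b.trans ?_⟩
  have hs : ∀ w : ℝ, 0 < w → Real.sqrt (π / (1 / w ^ 2)) ≤ 2 * w := by
    intro w hw
    have h1 : π / (1 / w ^ 2) = π * w ^ 2 := by
      field_simp
    rw [h1]
    apply Real.sqrt_le_iff.2
    refine ⟨by positivity, ?_⟩
    have := Real.pi_le_four
    nlinarith [sq_nonneg w]
  have e1 := hs (W / ρ) (by positivity)
  have e2 := hs W hW0
  have e3 := hs (W * ρ) (by positivity)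
  have hWρ : 1 ≤ W * ρ := one_le_mul_of_one_le_of_one_le hW hρ
  have f1 : 2 + Real.sqrt (π / (1 / (W / ρ) ^ 2)) ≤ 2 * (1 + W / ρ) := by linarith
  have f2 : 2 + Real.sqrt (π / (1 / W ^ 2)) ≤ 4 * W := by linarith
  have f3 : 2 + Real.sqrt (π / (1 / (W * ρ) ^ 2)) ≤ 4 * (W * ρ) := by linarith
  calc (2 + Real.sqrt (π / (1 / (W / ρ) ^ 2))) * ((2 + Real.sqrt (π / (1 / W ^ 2))) *
        (2 + Real.sqrt (π / (1 / (W * ρ) ^ 2)))) ≤ 2 * (1 + W / ρ) * (4 * W * (4 * (W * ρ))) :=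
        mul_le_mul f1 (mul_le_mul f2 f3 (by positivity) (by positivity)) (by positivity)
          (by positivity)
    _ = 32 * W ^ 2 * (W + ρ) := by
        field_simp
        ring

end Pool.Agent.H79.FM
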