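import Pool.Agent.H89.FM.Targets2
import Pool.Agent.H79.FM.G1

/-!
# MP_52e316_nt, board `fmo_modules`: row PN1
-/

set_option autoImplicit false

open MeasureTheory Set Filter
open scoped Real

namespace Pool.Agent.H79.FM

open Pool.Agent.H31.CN Pool.Agent.H89.FM

theorem pf_PN1 : T_PN1 := by
  intro W p ξ hW
  have hW2 : 0 < W ^ 2 := by positivity
  have hW0 : W ≠ 0 := hW.ne'
  have s1 : Summable (fun a : ℤ => Real.exp (-(π * ((a : ℝ) - p) ^ 2 / W ^ 2))) := by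
    have h := (gsum (π / W ^ 2) (-p) (by positivity)).1
    refine h.congr fun a => ?_
    congr 1
    ring
  have s2 : ∀ x : ℝ, Summable (fun z : ℤ => Real.exp (-(π * W ^ 2 * ((z : ℝ) + x) ^ 2))) :=
    fun x => (gsum (π * W ^ 2) x (by positivity)).1
  refine ⟨s1, s2 ξ, ?_⟩
  have hWc : (W : ℂ) ≠ 0 := by exact_mod_cast hW0
  -- the left side
  have hL : ∀ a : ℤ, (Real.exp (-(π * ((a : ℝ) - p) ^ 2 / W ^ 2)) : ℂ) *
      Complex.exp (2 * π * ((a * ξ : ℝ) : ℂ) * Complex.I) =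
      Complex.exp (-(π * p ^ 2 / W ^ 2)) *
        Complex.exp (-π * (1 / (W : ℂ) ^ 2) * (a : ℂ) ^ 2 +
          2 * π * ((p : ℂ) / W ^ 2 + Complex.I * ξ) * a) := by
    intro a
    rw [Complex.ofReal_exp, ← Complex.exp_add, ← Complex.exp_add]
    congr 1
    push_cast
    field_simp
    ring
  have hre : 0 < ((1 : ℂ) / (W : ℂ) ^ 2).re := by
    have h1 : (1 : ℂ) / (W : ℂ) ^ 2 = ((1 / W ^ 2 : ℝ) : ℂ) := by push_cast; ring
    rw [h1, Complex.ofReal_re]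
    positivity
  have hsqrt : ((1 : ℂ) / (W : ℂ) ^ 2) ^ (1 / 2 : ℂ) = ((1 / W : ℝ) : ℂ) := by
    have h1 : (1 : ℂ) / (W : ℂ) ^ 2 = ((1 / W ^ 2 : ℝ) : ℂ) := by push_cast; ring
    have h2 : (1 / 2 : ℂ) = ((1 / 2 : ℝ) : ℂ) := by push_cast; ring
    rw [h1, h2, ← Complex.ofReal_cpow (by positivity)]
    congr 1
    rw [← Real.sqrt_eq_rpow, Real.sqrt_div zero_le_one, Real.sqrt_one, Real.sqrt_sq hW.le]
  have hsum : ∑' a : ℤ, (Real.exp (-(π * ((a : ℝ) - p) ^ 2 / W ^ 2)) : ℂ) *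
      Complex.exp (2 * π * ((a * ξ : ℝ) : ℂ) * Complex.I) =
      Complex.exp (-(π * p ^ 2 / W ^ 2)) * ((W : ℂ) *
        ∑' n : ℤ, Complex.exp (-π / (1 / (W : ℂ) ^ 2) *
          ((n : ℂ) + Complex.I * ((p : ℂ) / W ^ 2 + Complex.I * ξ)) ^ 2)) := by
    rw [tsum_congr hL, tsum_mul_left, Complex.tsum_exp_neg_quadratic hre, hsqrt]
    congr 2
    push_cast
    field_simp
  have hterm : ∀ n : ℤ, Complex.exp (-(π * p ^ 2 / W ^ 2)) *
      Complex.exp (-π / (1 / (W : ℂ) ^ 2) *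
          ((n : ℂ) + Complex.I * ((p : ℂ) / W ^ 2 + Complex.I * ξ)) ^ 2) =
      ((Real.exp (-(π * W ^ 2 * ((n : ℝ) + -ξ) ^ 2)) : ℝ) : ℂ) *
        Complex.exp (((-(2 * π * ((n : ℝ) - ξ) * p) : ℝ) : ℂ) * Complex.I) := by
    intro n
    rw [Complex.ofReal_exp, ← Complex.exp_add, ← Complex.exp_add]
    congr 1
    have hI : Complex.I ^ 2 = -1 := Complex.I_sq
    have hI3 : Complex.I ^ 3 = -Complex.I := by rw [pow_succ, hI]; ring
    have hI4 : Complex.I ^ 4 = 1 := Complex.I_pow_four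
    push_cast
    field_simp
    ring_nf
    rw [hI3, hI4, hI]
    ring
  have hnorm : ∀ n : ℤ, ‖Complex.exp (-(π * p ^ 2 / W ^ 2)) *
      Complex.exp (-π / (1 / (W : ℂ) ^ 2) *
          ((n : ℂ) + Complex.I * ((p : ℂ) / W ^ 2 + Complex.I * ξ)) ^ 2)‖ =
      Real.exp (-(π * W ^ 2 * ((n : ℝ) + -ξ) ^ 2)) := by
    intro n
    rw [hterm, norm_mul, Complex.norm_exp_ofReal_mul_I, mul_one, Complex.norm_real,
      Real.norm_eq_abs, abs_of_pos (Real.exp_pos _)]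
  have hneg : ∑' n : ℤ, Real.exp (-(π * W ^ 2 * ((n : ℝ) + -ξ) ^ 2)) =
      ∑' z : ℤ, Real.exp (-(π * W ^ 2 * ((z : ℝ) + ξ) ^ 2)) := by
    rw [← (Equiv.neg ℤ).tsum_eq (fun z : ℤ => Real.exp (-(π * W ^ 2 * ((z : ℝ) + ξ) ^ 2)))]
    refine tsum_congr fun n => ?_
    congr 2
    rw [Equiv.neg_apply]
    push_cast
    ring
  rw [hsum, mul_left_comm, norm_mul, Complex.norm_real, Real.norm_eq_abs, abs_of_pos hW,
    ← tsum_mul_left]
  refine mul_le_mul_of_nonneg_left ?_ hW.le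
  rw [← hneg, ← tsum_congr hnorm]
  apply norm_tsum_le_tsum_norm
  exact (s2 (-ξ)).congr fun n => (hnorm n).symm

end Pool.Agent.H79.FM
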