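import Pool.Agent.H89.FM.Targets2
import Pool.Agent.H79.FM.G1

/-!
# MP_52e316_nt, board `fmo_modules`: row PN3
-/

set_option autoImplicit false

open MeasureTheory Set Filter
open scoped Real

namespace Pool.Agent.H79.FM

open Pool.Agent.H31.CN Pool.Agent.H89.FM

theorem pf_PN3 (hPN1 : T_PN1) : T_PN3 := by
  intro W ρ P ξ hW hρ
  obtain ⟨P1, P2, P3⟩ := P
  obtain ⟨x1, x2, x3⟩ := ξ
  have hW0 : W ≠ 0 := hW.ne'
  have hρ0 : ρ ≠ 0 := hρ.ne'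
  obtain ⟨a1, a2, a3⟩ := hPN1 (W / ρ) P1 x1 (by positivity)
  obtain ⟨b1, b2, b3⟩ := hPN1 W P2 x2 hW
  obtain ⟨c1, c2, c3⟩ := hPN1 (W * ρ) P3 x3 (by positivity)
  have hga : ∀ Q : QF, ga W ρ (P1, P2, P3) Q =
      Real.exp (-(π * ((Q.1 : ℝ) - P1) ^ 2 / (W / ρ) ^ 2)) *
        (Real.exp (-(π * ((Q.2.1 : ℝ) - P2) ^ 2 / W ^ 2)) *
          Real.exp (-(π * ((Q.2.2 : ℝ) - P3) ^ 2 / (W * ρ) ^ 2))) := by
    intro Q
    rw [← Real.exp_add, ← Real.exp_add]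
    unfold ga dq rl
    congr 1
    field_simp
    ring
  have hdz : ∀ Z : QF, Real.exp (-(π * W ^ 2 * dz ρ (rl Z + (x1, x2, x3)))) =
      Real.exp (-(π * (W / ρ) ^ 2 * ((Z.1 : ℝ) + x1) ^ 2)) *
        (Real.exp (-(π * W ^ 2 * ((Z.2.1 : ℝ) + x2) ^ 2)) *
          Real.exp (-(π * (W * ρ) ^ 2 * ((Z.2.2 : ℝ) + x3) ^ 2))) := by
    intro Z
    rw [← Real.exp_add, ← Real.exp_add]
    unfold dz rl
    simp only [Prod.mk_add_mk]
    congr 1
    field_simp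
    ring
  have hps : ps W ρ (x1, x2, x3) =
      (∑' z : ℤ, Real.exp (-(π * (W / ρ) ^ 2 * ((z : ℝ) + x1) ^ 2))) *
        ((∑' z : ℤ, Real.exp (-(π * W ^ 2 * ((z : ℝ) + x2) ^ 2))) *
          ∑' z : ℤ, Real.exp (-(π * (W * ρ) ^ 2 * ((z : ℝ) + x3) ^ 2))) := by
    unfold ps
    rw [tsum_congr hdz]
    exact (prod3 _ _ _ (fun _ => (Real.exp_pos _).le) (fun _ => (Real.exp_pos _).le)
      (fun _ => (Real.exp_pos _).le) a2 b2 c2).2
  refine ⟨?_, ?_, ?_⟩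
  · rw [funext hga]
    exact (prod3 _ _ _ (fun _ => (Real.exp_pos _).le) (fun _ => (Real.exp_pos _).le)
      (fun _ => (Real.exp_pos _).le) a1 b1 c1).1
  · rw [funext hdz]
    exact (prod3 _ _ _ (fun _ => (Real.exp_pos _).le) (fun _ => (Real.exp_pos _).le)
      (fun _ => (Real.exp_pos _).le) a2 b2 c2).1
  · have hterm : ∀ Q : QF, (ga W ρ (P1, P2, P3) Q : ℂ) * ee Q (x1, x2, x3) =
        ((Real.exp (-(π * ((Q.1 : ℝ) - P1) ^ 2 / (W / ρ) ^ 2)) : ℂ) *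
          Complex.exp (2 * π * ((Q.1 * x1 : ℝ) : ℂ) * Complex.I)) *
        (((Real.exp (-(π * ((Q.2.1 : ℝ) - P2) ^ 2 / W ^ 2)) : ℂ) *
          Complex.exp (2 * π * ((Q.2.1 * x2 : ℝ) : ℂ) * Complex.I)) *
        ((Real.exp (-(π * ((Q.2.2 : ℝ) - P3) ^ 2 / (W * ρ) ^ 2)) : ℂ) *
          Complex.exp (2 * π * ((Q.2.2 * x3 : ℝ) : ℂ) * Complex.I))) := by
      intro Q
      have he : ee Q (x1, x2, x3) = Complex.exp (2 * π * ((Q.1 * x1 : ℝ) : ℂ) * Complex.I) *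
          (Complex.exp (2 * π * ((Q.2.1 * x2 : ℝ) : ℂ) * Complex.I) *
            Complex.exp (2 * π * ((Q.2.2 * x3 : ℝ) : ℂ) * Complex.I)) := by
        rw [← Complex.exp_add, ← Complex.exp_add]
        unfold ee
        congr 1
        push_cast
        ring
      rw [hga, he]
      push_cast
      ring
    have hn : ∀ (w p x : ℝ) (a : ℤ), ‖(Real.exp (-(π * ((a : ℝ) - p) ^ 2 / w ^ 2)) : ℂ) *
        Complex.exp (2 * π * ((a * x : ℝ) : ℂ) * Complex.I)‖ =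
        Real.exp (-(π * ((a : ℝ) - p) ^ 2 / w ^ 2)) := by
      intro w p x a
      have h1 : (2 * π * ((a * x : ℝ) : ℂ) * Complex.I) =
          ((2 * π * (a * x) : ℝ) : ℂ) * Complex.I := by push_cast; ring
      rw [h1, norm_mul, Complex.norm_exp_ofReal_mul_I, mul_one, Complex.norm_real,
        Real.norm_eq_abs, abs_of_pos (Real.exp_pos _)]
    have sA := a1.congr fun a => (hn (W / ρ) P1 x1 a).symm
    have sB := b1.congr fun a => (hn W P2 x2 a).symm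
    have sC := c1.congr fun a => (hn (W * ρ) P3 x3 a).symm
    rw [tsum_congr hterm, prod3c _ _ _ sA sB sC, norm_mul, norm_mul, hps]
    have hWW : W ^ 3 = (W / ρ) * (W * (W * ρ)) := by
      field_simp
    rw [hWW]
    have t1 : 0 ≤ ∑' z : ℤ, Real.exp (-(π * (W / ρ) ^ 2 * ((z : ℝ) + x1) ^ 2)) :=
      tsum_nonneg fun _ => (Real.exp_pos _).le
    have t2 : 0 ≤ ∑' z : ℤ, Real.exp (-(π * W ^ 2 * ((z : ℝ) + x2) ^ 2)) :=
      tsum_nonneg fun _ => (Real.exp_pos _).le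
    have t3 : 0 ≤ ∑' z : ℤ, Real.exp (-(π * (W * ρ) ^ 2 * ((z : ℝ) + x3) ^ 2)) :=
      tsum_nonneg fun _ => (Real.exp_pos _).le
    refine (mul_le_mul a3 (mul_le_mul b3 c3 (norm_nonneg _) (mul_nonneg hW.le t2))
      (mul_nonneg (norm_nonneg _) (norm_nonneg _))
      (mul_nonneg (by positivity) t1)).trans (le_of_eq ?_)
    ring

end Pool.Agent.H79.FM
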