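import Pool.Agent.H89.FM.Targets2
import Pool.Agent.H79.FM.G1

/-!
# MP_52e316_nt, board `fmo_modules`: row TAL
-/

set_option autoImplicit false

open MeasureTheory Set Filter
open scoped Real

namespace Pool.Agent.H79.FM

open Pool.Agent.H31.CN Pool.Agent.H89.FM

/-- Gaussian sums of the dual metric -/
lemma dzsum (c W ρ : ℝ) (ξ : ℝ × ℝ × ℝ) (hc : 0 < c) (hW : 0 < W) (hρ : 0 < ρ) :
    Summable (fun Z : QF => Real.exp (-(c * W ^ 2 * dz ρ (rl Z + ξ)))) ∧
      ∑' Z : QF, Real.exp (-(c * W ^ 2 * dz ρ (rl Z + ξ))) ≤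
        (2 + Real.sqrt (π / (c * (W / ρ) ^ 2))) * ((2 + Real.sqrt (π / (c * W ^ 2))) *
          (2 + Real.sqrt (π / (c * (W * ρ) ^ 2)))) := by
  obtain ⟨x1, x2, x3⟩ := ξ
  have hρ0 : ρ ≠ 0 := hρ.ne'
  have hdz : ∀ Z : QF, Real.exp (-(c * W ^ 2 * dz ρ (rl Z + (x1, x2, x3)))) =
      Real.exp (-(c * (W / ρ) ^ 2 * ((Z.1 : ℝ) + x1) ^ 2)) *
        (Real.exp (-(c * W ^ 2 * ((Z.2.1 : ℝ) + x2) ^ 2)) *
          Real.exp (-(c * (W * ρ) ^ 2 * ((Z.2.2 : ℝ) + x3) ^ 2))) := by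
    intro Z
    rw [← Real.exp_add, ← Real.exp_add]
    unfold dz rl
    simp only [Prod.mk_add_mk]
    congr 1
    field_simp
    ring
  rw [funext hdz]
  exact gsum3 (c * (W / ρ) ^ 2) (c * W ^ 2) (c * (W * ρ) ^ 2) x1 x2 x3 (by positivity)
    (by positivity) (by positivity)

theorem pf_TAL : T_TAL := by
  refine ⟨64, ?_⟩
  intro W ρ η ξ hW hρ hη
  have hW0 : 0 < W := by linarith
  have hρ0 : 0 < ρ := by linarith
  obtain ⟨s1, -⟩ := dzsum π W ρ ξ Real.pi_pos hW0 hρ0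
  obtain ⟨s2, b2⟩ := dzsum (π / 2) W ρ ξ (by positivity) hW0 hρ0
  have hfin : {Z : QF | dz ρ (rl Z + ξ) ≤ η ^ 2}.Finite := by
    have hev := s1.tendsto_cofinite_zero.eventually_lt_const
      (Real.exp_pos (-(π * W ^ 2 * η ^ 2)))
    have hfs : {Z : QF | ¬ Real.exp (-(π * W ^ 2 * dz ρ (rl Z + ξ))) <
        Real.exp (-(π * W ^ 2 * η ^ 2))}.Finite := hev
    refine hfs.subset fun Z hZ => ?_
    simp only [Set.mem_ofPred_eq] at hZ ⊢
    rw [Real.exp_lt_exp, not_lt]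
    have h1 : 0 ≤ π * W ^ 2 := by positivity
    have h2 := mul_le_mul_of_nonneg_left hZ h1
    linarith
  refine ⟨hfin, ?_⟩
  -- the bound of the product
  have hbd : ∑' Z : QF, Real.exp (-(π / 2 * W ^ 2 * dz ρ (rl Z + ξ))) ≤ 64 * ρ := by
    refine b2.trans ?_
    have hs : ∀ w : ℝ, 0 < w → Real.sqrt (π / (π / 2 * w ^ 2)) ≤ 2 / w := by
      intro w hw
      have h1 : π / (π / 2 * w ^ 2) = 2 / w ^ 2 := by
        have := Real.pi_pos.ne'
        field_simp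
      rw [h1]
      apply Real.sqrt_le_iff.2
      refine ⟨by positivity, ?_⟩
      rw [div_pow]
      apply div_le_div_of_nonneg_right _ (by positivity)
      norm_num
    have e1 : 2 + Real.sqrt (π / (π / 2 * (W / ρ) ^ 2)) ≤ 4 * ρ := by
      have h1 := hs (W / ρ) (by positivity)
      have h2 : 2 / (W / ρ) ≤ 2 * ρ := by
        rw [div_le_iff₀ (by positivity)]
        have h3 : 2 * ρ * (W / ρ) = 2 * W := by field_simp
        rw [h3]
        linarith
      linarith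
    have e2 : 2 + Real.sqrt (π / (π / 2 * W ^ 2)) ≤ 4 := by
      have h1 := hs W hW0
      have h2 : 2 / W ≤ 2 := by
        rw [div_le_iff₀ hW0]
        linarith
      linarith
    have e3 : 2 + Real.sqrt (π / (π / 2 * (W * ρ) ^ 2)) ≤ 4 := by
      have hWρ : 1 ≤ W * ρ := one_le_mul_of_one_le_of_one_le hW hρ
      have h1 := hs (W * ρ) (by positivity)
      have h2 : 2 / (W * ρ) ≤ 2 := by
        rw [div_le_iff₀ (by positivity)]
        linarith
      linarith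
    calc (2 + Real.sqrt (π / (π / 2 * (W / ρ) ^ 2))) * ((2 + Real.sqrt (π / (π / 2 * W ^ 2))) *
          (2 + Real.sqrt (π / (π / 2 * (W * ρ) ^ 2)))) ≤ 4 * ρ * (4 * 4) :=
          mul_le_mul e1 (mul_le_mul e2 e3 (by positivity) (by norm_num)) (by positivity)
            (by positivity)
      _ = 64 * ρ := by ring
  -- pointwise bound
  have hpt : ∀ Z : QF, Real.exp (-(π * W ^ 2 * dz ρ (rl Z + ξ))) ≤
      (if Z ∈ hfin.toFinset then (1 : ℝ) else 0) +
        Real.exp (-(π * W ^ 2 * η ^ 2 / 2)) * Real.exp (-(π / 2 * W ^ 2 * dz ρ (rl Z + ξ))) := by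
    intro Z
    have hdz0 : 0 ≤ dz ρ (rl Z + ξ) := by
      unfold dz
      positivity
    by_cases hZ : dz ρ (rl Z + ξ) ≤ η ^ 2
    · rw [if_pos (by rw [Set.Finite.mem_toFinset]; exact hZ)]
      have h1 : Real.exp (-(π * W ^ 2 * dz ρ (rl Z + ξ))) ≤ 1 := by
        apply Real.exp_le_one_iff.2
        have : 0 ≤ π * W ^ 2 * dz ρ (rl Z + ξ) := by positivity
        linarith
      have h2 : 0 ≤ Real.exp (-(π * W ^ 2 * η ^ 2 / 2)) *
          Real.exp (-(π / 2 * W ^ 2 * dz ρ (rl Z + ξ))) := by positivity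
      linarith
    · rw [if_neg (by rw [Set.Finite.mem_toFinset]; exact hZ), zero_add, ← Real.exp_add]
      apply Real.exp_le_exp.2
      push Not at hZ
      have h1 : 0 ≤ π * W ^ 2 := by positivity
      have h2 := mul_le_mul_of_nonneg_left hZ.le h1
      linarith
  have s3 : Summable (fun Z : QF => (if Z ∈ hfin.toFinset then (1 : ℝ) else 0)) :=
    summable_of_ne_finset_zero (s := hfin.toFinset) (fun Z hZ => if_neg hZ)
  have hsum : ∑' Z : QF, (if Z ∈ hfin.toFinset then (1 : ℝ) else 0) = nz ρ η ξ := by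
    rw [tsum_eq_sum (s := hfin.toFinset) (fun Z hZ => if_neg hZ)]
    rw [Finset.sum_congr rfl (fun Z hZ => if_pos hZ), Finset.sum_const, nsmul_eq_mul, mul_one]
    unfold nz
    have h1 : Nat.card {Z : QF // dz ρ (rl Z + ξ) ≤ η ^ 2} =
        {Z : QF | dz ρ (rl Z + ξ) ≤ η ^ 2}.ncard := rfl
    rw [h1, Set.ncard_eq_toFinset_card _ hfin]
  have hfinal : ps W ρ ξ ≤ nz ρ η ξ +
      Real.exp (-(π * W ^ 2 * η ^ 2 / 2)) *
        ∑' Z : QF, Real.exp (-(π / 2 * W ^ 2 * dz ρ (rl Z + ξ))) := by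
    rw [← hsum, ← tsum_mul_left, ← s3.tsum_add (s2.mul_left _)]
    exact s1.tsum_le_tsum hpt (s3.add (s2.mul_left _))
  refine hfinal.trans ?_
  have h5 := mul_le_mul_of_nonneg_left hbd (Real.exp_pos (-(π * W ^ 2 * η ^ 2 / 2))).le
  linarith

end Pool.Agent.H79.FM
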